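import Pool.Agent.H44.FB.Basics

/-!
# Row EPT: from complete types to sets of pieces
-/

set_option autoImplicit false

namespace Pool.Agent.H39.FB

open Pool.Agent.H68.BP Pool.Agent.H58.SF Pool.Agent.H53.NR
open Pool.Agent.H53.GC (arP relP strOn sigOf)
open Pool.Agent.H53.GR (Ps Dm)
open Pool.Agent.H53.GM (Connected Avoids Val Cols DmG)
open Pool.Agent.H53.GX (FmX)
open Pool.Agent.H57.AR (tp ty Ty)
open Pool.Agent.H57.EQ (Cx)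
open Pool.Agent.H57.SO (fib sigF SF)
open Pool.Agent.H57.LH (SS vs c0 Blind NCB Cor Prs tfL SyL)
open Pool.Agent.H44.KR Pool.Agent.H44.FB
open Function Classical

variable {V : Type} {σ ρ : Sig} {𝔸 : Str σ V} {𝔹 : Str ρ V}

/-- the types of the structure of the colours -/
noncomputable abbrev gtp (𝔸 : Str σ V) (𝔹 : Str ρ V) (m N : ℕ) {J : Type} (x : J → V) :
    Pool.Agent.H53.GM.Ty (sigC 𝔹 σ m) N J :=
  Pool.Agent.H53.GM.tp N (NC 𝔹 σ m (Bl 𝔸 𝔹)) x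

/-- embeddings are homomorphisms -/
theorem ept_hom (m : ℕ) (B : Set (Fin ρ.m → Prop)) {g : V → V}
    (hg : ∀ (J : Type) (a : J → V), tp 𝔹 (fun j => g (a j)) = tp 𝔹 a) :
    IsHom (NC 𝔹 σ m B) (NC 𝔹 σ m B) g := by
  rintro c x ⟨h1, h2, h3⟩
  refine ⟨fun a => ?_, fun a b hab => ?_, fun l z hz => ?_⟩
  · exact (ty_of_tp (hg _ x) a).trans (h1 a)
  · exact h2 a b ((eq_of_tp (hg _ x) a b).1 hab)
  · exact (rel_of_tp (hg _ x) l z).trans (h3 l z hz)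

theorem ept_sub (m N : ℕ) {J : Type} {g : V → V}
    (hg : ∀ (J : Type) (a : J → V), tp 𝔹 (fun j => g (a j)) = tp 𝔹 a) (x : J → V) :
    gtp 𝔸 𝔹 m N x (σ := σ) ⊆ gtp 𝔸 𝔹 m N (fun i => g (x i)) := by
  rintro p ⟨h1, f, h2, h3⟩
  refine ⟨h1, fun v => g (f v), fun l z hz => ?_, fun v i hv => ?_⟩
  · exact ept_hom m (Bl 𝔸 𝔹) hg l _ (h2 l z hz)
  · exact congrArg g (h3 v i hv)

theorem ept_eq (hE : EmbC 𝔹) (m N : ℕ) {J : Type} [Finite J] (x x' : J → V) (hx : Injective x)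
    (hx' : Injective x') (h : pull 𝔹 x = pull 𝔹 x') :
    gtp 𝔸 𝔹 m N x (σ := σ) = gtp 𝔸 𝔹 m N x' := by
  have key : ∀ x x' : J → V, Injective x → Injective x' → pull 𝔹 x = pull 𝔹 x' →
      gtp 𝔸 𝔹 m N x (σ := σ) ⊆ gtp 𝔸 𝔹 m N x' := by
    intro x x' hx hx' h
    have ht : tp 𝔹 x = tp 𝔹 x' := by
      refine Prod.ext ?_ h
      funext a b
      exact propext ⟨fun e => congrArg x' (hx e), fun e => congrArg x (hx' e)⟩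
    obtain ⟨g, hg, hgx⟩ := hE J x x' ht
    have h1 := ept_sub (𝔸 := 𝔸) (𝔹 := 𝔹) m N hg x
    have h2 : (fun i => g (x i)) = x' := funext hgx
    rw [h2] at h1
    exact h1
  exact Set.Subset.antisymm (key x x' hx hx' h) (key x' x hx' hx h.symm)

/-- the colour of a tuple -/
def NCs (B : Set (Fin ρ.m → Prop)) (m : ℕ) (s₀ : CI 𝔹 σ m)
    (x : Fin ((sigF (SS 𝔹) σ m).ar s₀.1.1) → V) : Prop :=
  (∀ a, ty 𝔹 (x a) = tyI 𝔹 σ m s₀.1.1 a) ∧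
    (∀ a b, x a = x b → a = b ∨ tyI 𝔹 σ m s₀.1.1 a ∈ B) ∧
    ∀ (l : Fin ρ.m) (z : Fin (ρ.ar l) → Fin ((sigF (SS 𝔹) σ m).ar s₀.1.1)),
      (∀ i, tyI 𝔹 σ m s₀.1.1 (z i) ∉ B) → (𝔹 l (fun i => x (z i)) ↔ s₀.1.2 l z)

theorem ept_fib (B : Set (Fin ρ.m → Prop)) (m : ℕ) (i : Fin (sigF (SS 𝔹) σ m).m)
    (h1 : 1 ≤ (sigF (SS 𝔹) σ m).ar i) (x : Fin ((sigF (SS 𝔹) σ m).ar i) → V)
    (hx : fib 𝔸 m (c0 𝔹) i x) : fbI 𝔸 𝔹 m B i x := by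
  obtain ⟨hi, ht, hr⟩ := hx
  refine ⟨h1, fun a => ?_, fun a b hab => Or.inl (hi hab), hr⟩
  have h2 := ht a
  rw [Pool.Agent.H57.LH.c0_self] at h2
  exact congrArg Subtype.val (Sum.inl_injective h2)

theorem ept_col (B : Set (Fin ρ.m → Prop)) (m : ℕ) (i : Fin (sigF (SS 𝔹) σ m).m)
    (h1 : 1 ≤ (sigF (SS 𝔹) σ m).ar i) (x : Fin ((sigF (SS 𝔹) σ m).ar i) → V)
    (hx : fib 𝔸 m (c0 𝔹) i x) (s₀ : CI 𝔹 σ m) (hs : s₀ = ⟨⟨i, pull 𝔹 x⟩, h1⟩) :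
    (s₀.1.1 = i ∧ ∃ x' : Fin ((sigF (SS 𝔹) σ m).ar s₀.1.1) → V,
      fbI 𝔸 𝔹 m B s₀.1.1 x' ∧ NCs B m s₀ x') ∧
    ∃ h : (sigF (SS 𝔹) σ m).ar s₀.1.1 = (sigF (SS 𝔹) σ m).ar i,
      NCs B m s₀ (fun a => x (Fin.cast h a)) := by
  subst hs
  have h2 := ept_fib B m i h1 x hx
  have h3 : NCs B m (⟨⟨i, pull 𝔹 x⟩, h1⟩ : CI 𝔹 σ m) x :=
    ⟨h2.2.1, h2.2.2.1, fun l z _ => Iff.rfl⟩
  exact ⟨⟨rfl, x, h2, h3⟩, rfl, h3⟩

/-- the map of the types -/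
noncomputable def EE (𝔸 : Str σ V) (𝔹 : Str ρ V) (m N : ℕ) (hm : m ≤ N) (d : Dm ρ m) :
    DmG (sigC 𝔹 σ m) N :=
  ⟨⟨d.1, lt_of_lt_of_le d.1.2 hm⟩,
    if h : ∃ x : Fin (d.1 + 1) → V, Injective x ∧ pull 𝔹 x = d.2 then gtp 𝔸 𝔹 m N h.choose else ∅⟩

theorem ept_EE (hE : EmbC 𝔹) (m N : ℕ) (hm : m ≤ N) (j : Fin m) (x : Fin (j + 1) → V)
    (hx : Injective x) :
    EE 𝔸 𝔹 m N hm ⟨j, pull 𝔹 x⟩ = ⟨⟨j, lt_of_lt_of_le j.2 hm⟩, gtp 𝔸 𝔹 m N x⟩ := by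
  have h : ∃ x' : Fin (j + 1) → V, Injective x' ∧ pull 𝔹 x' = pull 𝔹 x := ⟨x, hx, rfl⟩
  have h1 : EE 𝔸 𝔹 m N hm ⟨j, pull 𝔹 x⟩ =
      ⟨⟨j, lt_of_lt_of_le j.2 hm⟩, gtp 𝔸 𝔹 m N h.choose⟩ := by
    unfold EE
    exact Sigma.ext rfl (heq_of_eq (dif_pos h))
  rw [h1, ept_eq hE m N h.choose x h.choose_spec.1 hx h.choose_spec.2]

theorem pf_EPT : T_EPT := by
  intro V σ ρ 𝔸 𝔹 hB hE m N hm F hF
  refine ⟨EE 𝔸 𝔹 m N hm, fun s q har hq => ?_⟩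
  obtain ⟨x, hfib, hst, hqq⟩ := hq
  have hinj : Injective x := hfib.1
  -- the homomorphisms of the pieces
  have hch : ∀ k : (Σ p : Ps N ((sigF (SS 𝔹) σ m).ar s.1),
      (Str (sigC 𝔹 σ m) (Fin N) × (Fin N → Option (Fin (p.1 + 1))))), ∃ f : Fin N → V,
      k.2 ∈ gtp 𝔸 𝔹 m N (fun i => x (k.1.2 i)) →
        IsHom k.2.1 (NC 𝔹 σ m (Bl 𝔸 𝔹)) f ∧
          ∀ v i, k.2.2 v = some i → f v = x (k.1.2 i) := by
    intro k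
    by_cases h : k.2 ∈ gtp 𝔸 𝔹 m N (fun i => x (k.1.2 i))
    · obtain ⟨-, f, h1, h2⟩ := h
      exact ⟨f, fun _ => ⟨h1, h2⟩⟩
    · exact ⟨fun _ => x ⟨0, har⟩, fun h' => absurd h' h⟩
  choose fk hfk using hch
  set S : Set V := Set.range x ∪ Set.range (fun p : (Σ p : Ps N ((sigF (SS 𝔹) σ m).ar s.1),
      (Str (sigC 𝔹 σ m) (Fin N) × (Fin N → Option (Fin (p.1 + 1))))) × Fin N => fk p.1 p.2) with hS
  have hSf : S.Finite := (Set.finite_range _).union (Set.finite_range _)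
  have hW : Finite S := hSf
  have hxS : ∀ a, x a ∈ S := fun a => Or.inl ⟨a, rfl⟩
  have hfS : ∀ k v, fk k v ∈ S := fun k v => Or.inr ⟨(k, v), rfl⟩
  have hne : Nonempty S := ⟨⟨x ⟨0, har⟩, hxS _⟩⟩
  refine ⟨fun p => ⟨p.1, gtp 𝔸 𝔹 m N (fun i => x (p.2 i))⟩, ?_, ?_⟩
  · refine ⟨S, hW, fun c z => NC 𝔹 σ m (Bl 𝔸 𝔹) c (fun i => (z i).1),
      fun a => ⟨x a, hxS a⟩, ?_, ?_, ?_, ?_⟩
    · exact (hF S _).2 ⟨Subtype.val, fun l z hz => hz⟩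
    · have h4 := ept_col (Bl 𝔸 𝔹) m s.1 har x hfib
        (co 𝔹 σ m (Finite.equivFin (CI 𝔹 σ m) ⟨⟨s.1, pull 𝔹 x⟩, har⟩))
        (Equiv.symm_apply_apply _ _)
      exact ⟨_, h4.1, h4.2⟩
    · intro a b hab
      exact Subtype.ext (hst a b hab)
    · intro j α _
      refine Sigma.ext rfl (heq_of_eq ?_)
      apply Set.Subset.antisymm
      · intro p hp
        obtain ⟨h1, h2⟩ := hfk ⟨⟨j, α⟩, p⟩ hp
        refine ⟨hp.1, fun v => ⟨fk ⟨⟨j, α⟩, p⟩ v, hfS _ _⟩, fun l z hz => h1 l z hz,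
          fun v i hv => Subtype.ext (h2 v i hv)⟩
      · rintro p ⟨h0, f, h1, h2⟩
        exact ⟨h0, fun v => (f v).1, fun l z hz => h1 l z hz,
          fun v i hv => congrArg Subtype.val (h2 v i hv)⟩
  · intro j α hα
    rw [hqq j α hα]
    have hαi : Injective α := by
      intro a b hab
      exact hα.injective (by show s.2 (α a) = s.2 (α b); rw [hab])
    exact (ept_EE hE m N hm j (fun i => x (α i)) (hinj.comp hαi)).symm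

end Pool.Agent.H39.FB
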